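import Pool.Agent.Y217.PB.Stm

/-!
# Polytopes all of whose facets and vertices are simplicial, with few vertices (PB-P3)
-/

set_option autoImplicit false

namespace Pool.Agent.Y294.PB

open Set Topology Metric Module
open scoped InnerProductSpace
open Pool.Agent.Y217.PB (PEdge JInc JDeg JSimp)

section lemmas

variable {N : ℕ}


lemma isLin (n : (EuclideanSpace ℝ (Fin N))) : IsLinearMap ℝ (fun r : (EuclideanSpace ℝ (Fin N)) => ⟪n, r⟫_ℝ) :=
  ⟨fun _ _ => inner_add_right _ _ _, fun _ _ => inner_smul_right _ _ _⟩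

/-- supporting inequalities can be tested on the vertices -/
lemma supp_iff {V : Finset (EuclideanSpace ℝ (Fin N))} {n : (EuclideanSpace ℝ (Fin N))} {m : ℝ} (h : ∀ v ∈ V, ⟪n, v⟫_ℝ ≤ m) :
    ∀ r ∈ convexHull ℝ (V : Set (EuclideanSpace ℝ (Fin N))), ⟪n, r⟫_ℝ ≤ m := by
  have h1 : Convex ℝ {r : (EuclideanSpace ℝ (Fin N)) | ⟪n, r⟫_ℝ ≤ m} := convex_halfSpace_le (isLin n) m
  exact convexHull_min (fun v hv => h v hv) h1

/-- the face of a supporting hyperplane is the hull of its vertices -/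
lemma face_hull {V : Finset (EuclideanSpace ℝ (Fin N))} {n : (EuclideanSpace ℝ (Fin N))} {m : ℝ} (h : ∀ v ∈ V, ⟪n, v⟫_ℝ ≤ m) :
    {r | r ∈ convexHull ℝ (V : Set (EuclideanSpace ℝ (Fin N))) ∧ ⟪n, r⟫_ℝ = m} =
      convexHull ℝ ((V.filter fun v => ⟪n, v⟫_ℝ = m : Finset (EuclideanSpace ℝ (Fin N))) : Set (EuclideanSpace ℝ (Fin N))) := by
  classical
  apply Subset.antisymm
  · rintro r ⟨hr, hrm⟩
    rw [Finset.mem_convexHull'] at hr ⊢
    obtain ⟨w, hw0, hw1, hwr⟩ := hr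
    have hz : ∀ v ∈ V, ⟪n, v⟫_ℝ ≠ m → w v = 0 := by
      have hsum : ∑ v ∈ V, w v * (m - ⟪n, v⟫_ℝ) = 0 := by
        have h2 : ⟪n, r⟫_ℝ = ∑ v ∈ V, w v * ⟪n, v⟫_ℝ := by
          rw [← hwr, inner_sum]
          exact Finset.sum_congr rfl fun v _ => by rw [inner_smul_right]
        simp only [mul_sub, Finset.sum_sub_distrib]
        rw [← h2, ← Finset.sum_mul, hw1, hrm]
        ring
      have h3 := (Finset.sum_eq_zero_iff_of_nonneg (fun v hv =>
        mul_nonneg (hw0 v hv) (sub_nonneg.2 (h v hv)))).1 hsum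
      intro v hv hvm
      rcases mul_eq_zero.1 (h3 v hv) with h4 | h4
      · exact h4
      · exact absurd (sub_eq_zero.1 h4).symm hvm
    refine ⟨w, fun v hv => hw0 v (Finset.mem_filter.1 hv).1, ?_, ?_⟩
    · rw [← hw1, Finset.sum_filter]
      refine Finset.sum_congr rfl fun v hv => ?_
      split_ifs with h5
      · rfl
      · exact (hz v hv h5).symm
    · rw [← hwr, Finset.sum_filter]
      refine Finset.sum_congr rfl fun v hv => ?_
      split_ifs with h5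
      · rfl
      · rw [hz v hv h5, zero_smul]
  · have h1 : Convex ℝ {r | r ∈ convexHull ℝ (V : Set (EuclideanSpace ℝ (Fin N))) ∧ ⟪n, r⟫_ℝ = m} := by
      have := convex_hyperplane (isLin n) m
      exact (convex_convexHull ℝ _).inter this
    refine convexHull_min (fun v hv => ?_) h1
    rw [Finset.mem_coe, Finset.mem_filter] at hv
    exact ⟨subset_convexHull ℝ _ hv.1, hv.2⟩

/-- a nonzero functional is not constant on the vertices of a body with interior points -/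
lemma exists_ne {V : Finset (EuclideanSpace ℝ (Fin N))} (hint : (interior (convexHull ℝ (V : Set (EuclideanSpace ℝ (Fin N))))).Nonempty)
    {n : (EuclideanSpace ℝ (Fin N))} (hn : n ≠ 0) (m : ℝ) : ∃ v ∈ V, ⟪n, v⟫_ℝ ≠ m := by
  by_contra hcon
  push Not at hcon
  have h1 : convexHull ℝ (V : Set (EuclideanSpace ℝ (Fin N))) ⊆ {r | ⟪n, r⟫_ℝ = m} := by
    have := convex_hyperplane (isLin n) m
    exact convexHull_min (fun v hv => hcon v hv) this
  obtain ⟨x, hx⟩ := hint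
  rw [mem_interior_iff_mem_nhds, Metric.mem_nhds_iff] at hx
  obtain ⟨ε, hε, hb⟩ := hx
  have hnn : 0 < ‖n‖ := norm_pos_iff.2 hn
  set t : ℝ := ε / (2 * ‖n‖) with ht
  have ht0 : 0 < t := by positivity
  have hx1 := h1 (hb (mem_ball_self hε))
  have hmem : x + t • n ∈ ball x ε := by
    rw [mem_ball, dist_eq_norm, add_sub_cancel_left, norm_smul, Real.norm_of_nonneg ht0.le, ht]
    have : ε / (2 * ‖n‖) * ‖n‖ = ε / 2 := by field_simp
    rw [this]; linarith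
  have hx2 := h1 (hb hmem)
  simp only [mem_ofPred_eq] at hx1 hx2
  rw [inner_add_right, inner_smul_right, hx1, real_inner_self_eq_norm_sq] at hx2
  have : 0 < t * ‖n‖ ^ 2 := by positivity
  linarith

/-- a set in a hyperplane spans at most `N - 1` dimensions -/
lemma finrank_le {S : Set (EuclideanSpace ℝ (Fin N))} {n : (EuclideanSpace ℝ (Fin N))} (hn : n ≠ 0) {m : ℝ} (h : ∀ x ∈ S, ⟪n, x⟫_ℝ = m) :
    finrank ℝ (vectorSpan ℝ S) ≤ N - 1 := by
  have h1 : vectorSpan ℝ S ≤ (ℝ ∙ n)ᗮ := by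
    rw [vectorSpan_def, Submodule.span_le]
    rintro _ ⟨x, hx, y, hy, rfl⟩
    rw [SetLike.mem_coe, Submodule.mem_orthogonal_singleton_iff_inner_right]
    show ⟪n, x - y⟫_ℝ = 0
    rw [inner_sub_right, h x hx, h y hy, sub_self]
  have h2 := (ℝ ∙ n).finrank_add_finrank_orthogonal
  rw [finrank_span_singleton hn, finrank_euclideanSpace, Fintype.card_fin] at h2
  have h3 := Submodule.finrank_mono h1
  omega

/-- separation of a point from an affine subspace -/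
lemma sep {S : Set (EuclideanSpace ℝ (Fin N))} (hS : S.Nonempty) {x : (EuclideanSpace ℝ (Fin N))} (hx : x ∉ affineSpan ℝ S) :
    ∃ (u : (EuclideanSpace ℝ (Fin N))) (c : ℝ), (∀ y ∈ S, ⟪u, y⟫_ℝ = c) ∧ ⟪u, x⟫_ℝ < c := by
  obtain ⟨y0, hy0⟩ := hS
  set D := vectorSpan ℝ S with hD
  set z := x - y0 with hz
  have hzD : z ∉ D := by
    intro h
    apply hx
    have : x = z +ᵥ y0 := by rw [hz, vadd_eq_add, sub_add_cancel]
    rw [this]
    exact AffineSubspace.vadd_mem_of_mem_direction (by rwa [direction_affineSpan])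
      (mem_affineSpan ℝ hy0)
  set P := D.starProjection z with hP
  have horth : ∀ d ∈ D, ⟪z - P, d⟫_ℝ = 0 := by
    intro d hd
    rw [real_inner_comm]
    exact (Submodule.sub_starProjection_mem_orthogonal (K := D) z) d hd
  have hPD : P ∈ D := Submodule.starProjection_apply_mem D z
  have hne : z - P ≠ 0 := by
    intro h
    exact hzD (by rw [sub_eq_zero.1 h]; exact hPD)
  refine ⟨-(z - P), ⟪-(z - P), y0⟫_ℝ, ?_, ?_⟩
  · intro y hy
    have h1 := horth (y - y0) (vsub_mem_vectorSpan ℝ hy hy0)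
    rw [inner_sub_right] at h1
    rw [inner_neg_left, inner_neg_left]
    linarith
  · have h1 : ⟪z - P, z⟫_ℝ = ‖z - P‖ ^ 2 := by
      have h2 := horth P hPD
      rw [← real_inner_self_eq_norm_sq]
      conv_rhs => rw [inner_sub_right]
      rw [h2, sub_zero]
    have h3 : 0 < ‖z - P‖ ^ 2 := by
      have := norm_pos_iff.2 hne
      positivity
    have h4 : ⟪z - P, x⟫_ℝ - ⟪z - P, y0⟫_ℝ = ‖z - P‖ ^ 2 := by
      rw [← inner_sub_right, ← hz, h1]
    rw [inner_neg_left, inner_neg_left]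
    linarith

/-- rotation of a supporting hyperplane -/
lemma rot {V : Finset (EuclideanSpace ℝ (Fin N))} {n : (EuclideanSpace ℝ (Fin N))} {m : ℝ} (h : ∀ v ∈ V, ⟪n, v⟫_ℝ ≤ m) {u : (EuclideanSpace ℝ (Fin N))} {c : ℝ}
    (hw : ∀ v ∈ V, ⟪n, v⟫_ℝ = m → ⟪u, v⟫_ℝ ≤ c) (hpos : ∃ v ∈ V, c < ⟪u, v⟫_ℝ) :
    ∃ l : ℝ, 0 < l ∧ (∀ v ∈ V, ⟪n + l • u, v⟫_ℝ ≤ m + l * c) ∧
      ∃ v ∈ V, c < ⟪u, v⟫_ℝ ∧ ⟪n + l • u, v⟫_ℝ = m + l * c := by
  classical
  set W := V.filter fun v => c < ⟪u, v⟫_ℝ with hW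
  have hWne : W.Nonempty := by
    obtain ⟨v, hv, hv'⟩ := hpos
    exact ⟨v, Finset.mem_filter.2 ⟨hv, hv'⟩⟩
  obtain ⟨p, hp, hmin⟩ := W.exists_min_image (fun v => (m - ⟪n, v⟫_ℝ) / (⟪u, v⟫_ℝ - c)) hWne
  rw [Finset.mem_filter] at hp
  have hpn : ⟪n, p⟫_ℝ < m := by
    refine lt_of_le_of_ne (h p hp.1) fun h1 => ?_
    exact absurd (hw p hp.1 h1) (not_le.2 hp.2)
  set l := (m - ⟪n, p⟫_ℝ) / (⟪u, p⟫_ℝ - c) with hl
  have hd : 0 < ⟪u, p⟫_ℝ - c := sub_pos.2 hp.2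
  have hl0 : 0 < l := div_pos (sub_pos.2 hpn) hd
  have hin : ∀ v : (EuclideanSpace ℝ (Fin N)), ⟪n + l • u, v⟫_ℝ = ⟪n, v⟫_ℝ + l * ⟪u, v⟫_ℝ := by
    intro v; rw [inner_add_left, real_inner_smul_left]
  refine ⟨l, hl0, fun v hv => ?_, p, hp.1, hp.2, ?_⟩
  · rw [hin]
    by_cases hvc : c < ⟪u, v⟫_ℝ
    · have h1 := hmin v (Finset.mem_filter.2 ⟨hv, hvc⟩)
      rw [le_div_iff₀ (sub_pos.2 hvc)] at h1
      linarith
    · push Not at hvc
      have h1 := h v hv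
      nlinarith
  · rw [hin]
    have h1 : l * (⟪u, p⟫_ℝ - c) = m - ⟪n, p⟫_ℝ := by
      rw [hl]; field_simp
    linarith

open Classical in
/-- the vertices on a hyperplane -/
noncomputable def fc (V : Finset (EuclideanSpace ℝ (Fin N))) (n : (EuclideanSpace ℝ (Fin N))) (m : ℝ) : Finset (EuclideanSpace ℝ (Fin N)) := V.filter fun v => ⟪n, v⟫_ℝ = m

lemma mem_fc {V : Finset (EuclideanSpace ℝ (Fin N))} {n : (EuclideanSpace ℝ (Fin N))} {m : ℝ} {v : (EuclideanSpace ℝ (Fin N))} : v ∈ fc V n m ↔ v ∈ V ∧ ⟪n, v⟫_ℝ = m := by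
  unfold fc; exact Finset.mem_filter

/-- one step of the construction of a facet -/
lemma step {V : Finset (EuclideanSpace ℝ (Fin N))} (hint : (interior (convexHull ℝ (V : Set (EuclideanSpace ℝ (Fin N))))).Nonempty) {n : (EuclideanSpace ℝ (Fin N))} {m : ℝ}
    (hn : n ≠ 0) (hs : ∀ v ∈ V, ⟪n, v⟫_ℝ ≤ m) (hF : (fc V n m).Nonempty)
    (hd : finrank ℝ (vectorSpan ℝ (fc V n m : Set (EuclideanSpace ℝ (Fin N)))) < N - 1) :
    ∃ (n' : (EuclideanSpace ℝ (Fin N))) (m' : ℝ), n' ≠ 0 ∧ (∀ v ∈ V, ⟪n', v⟫_ℝ ≤ m') ∧ (fc V n' m').Nonempty ∧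
      finrank ℝ (vectorSpan ℝ (fc V n m : Set (EuclideanSpace ℝ (Fin N)))) < finrank ℝ (vectorSpan ℝ (fc V n' m' : Set (EuclideanSpace ℝ (Fin N)))) := by
  obtain ⟨y0, hy0⟩ := hF
  set D := vectorSpan ℝ (fc V n m : Set (EuclideanSpace ℝ (Fin N))) with hD
  have h2 := D.finrank_add_finrank_orthogonal
  rw [finrank_euclideanSpace, Fintype.card_fin] at h2
  have h3 : ¬ (Dᗮ ≤ ℝ ∙ n) := by
    intro h
    have h4 := Submodule.finrank_mono h
    rw [finrank_span_singleton hn] at h4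
    omega
  obtain ⟨u, hu, hun⟩ := SetLike.not_le_iff_exists.1 h3
  have hu0 : u ≠ 0 := fun h => hun (by rw [h]; exact Submodule.zero_mem _)
  have horth : ∀ d ∈ D, ⟪u, d⟫_ℝ = 0 := fun d hd => by rw [real_inner_comm]; exact hu d hd
  -- we may assume that `u` increases somewhere
  obtain ⟨w, hwn, hworth, v, hv, hvw⟩ : ∃ w : (EuclideanSpace ℝ (Fin N)), w ∉ (ℝ ∙ n) ∧ (∀ d ∈ D, ⟪w, d⟫_ℝ = 0) ∧
      ∃ v ∈ V, ⟪w, y0⟫_ℝ < ⟪w, v⟫_ℝ := by
    obtain ⟨v, hv, hvne⟩ := exists_ne hint hu0 ⟪u, y0⟫_ℝ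
    rcases lt_or_gt_of_ne hvne with h | h
    · refine ⟨-u, fun h4 => hun ((Submodule.neg_mem_iff _).1 h4), fun d hd => ?_, v, hv, ?_⟩
      · rw [inner_neg_left, horth d hd, neg_zero]
      · rw [inner_neg_left, inner_neg_left]; linarith
    · exact ⟨u, hun, horth, v, hv, h⟩
  have hcF : ∀ y ∈ fc V n m, ⟪w, y⟫_ℝ = ⟪w, y0⟫_ℝ := by
    intro y hy
    have h4 := hworth (y - y0) (vsub_mem_vectorSpan ℝ (Finset.mem_coe.2 hy) (Finset.mem_coe.2 hy0))
    rw [inner_sub_right] at h4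
    linarith
  obtain ⟨l, hl, hs', p, hp, hpw, hpe⟩ := rot (u := w) (c := ⟪w, y0⟫_ℝ) hs
    (fun v hv hvm => (hcF v (mem_fc.2 ⟨hv, hvm⟩)).le) ⟨v, hv, hvw⟩
  have hsub : ∀ y ∈ fc V n m, y ∈ fc V (n + l • w) (m + l * ⟪w, y0⟫_ℝ) := by
    intro y hy
    refine mem_fc.2 ⟨(mem_fc.1 hy).1, ?_⟩
    rw [inner_add_left, real_inner_smul_left, (mem_fc.1 hy).2, hcF y hy]
  refine ⟨n + l • w, m + l * ⟪w, y0⟫_ℝ, ?_, hs', ⟨y0, hsub y0 hy0⟩, ?_⟩
  · intro h
    apply hwn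
    rw [Submodule.mem_span_singleton]
    refine ⟨-l⁻¹, ?_⟩
    have h4 : n = -(l • w) := eq_neg_of_add_eq_zero_left h
    rw [h4, smul_neg, neg_smul, neg_neg, smul_smul, inv_mul_cancel₀ hl.ne', one_smul]
  · apply Submodule.finrank_lt_finrank_of_lt
    refine lt_of_le_of_ne (vectorSpan_mono ℝ fun y hy => hsub y hy) fun h => ?_
    have h4 : p - y0 ∈ vectorSpan ℝ (fc V (n + l • w) (m + l * ⟪w, y0⟫_ℝ) : Set (EuclideanSpace ℝ (Fin N))) :=
      vsub_mem_vectorSpan ℝ (Finset.mem_coe.2 (mem_fc.2 ⟨hp, hpe⟩))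
        (Finset.mem_coe.2 (hsub y0 hy0))
    rw [← h] at h4
    have h5 := hworth _ h4
    rw [inner_sub_right] at h5
    linarith

/-- there is a facet -/
lemma exists_facet {V : Finset (EuclideanSpace ℝ (Fin N))} (hN : 1 ≤ N)
    (hint : (interior (convexHull ℝ (V : Set (EuclideanSpace ℝ (Fin N))))).Nonempty) :
    ∃ (n : (EuclideanSpace ℝ (Fin N))) (m : ℝ), n ≠ 0 ∧ (∀ v ∈ V, ⟪n, v⟫_ℝ ≤ m) ∧ (fc V n m).Nonempty ∧
      finrank ℝ (vectorSpan ℝ (fc V n m : Set (EuclideanSpace ℝ (Fin N)))) = N - 1 := by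
  have key : ∀ d : ℕ, d ≤ N - 1 → ∃ (n : (EuclideanSpace ℝ (Fin N))) (m : ℝ), n ≠ 0 ∧ (∀ v ∈ V, ⟪n, v⟫_ℝ ≤ m) ∧
      (fc V n m).Nonempty ∧ d ≤ finrank ℝ (vectorSpan ℝ (fc V n m : Set (EuclideanSpace ℝ (Fin N)))) := by
    intro d
    induction d with
    | zero =>
      intro _
      have hVne : V.Nonempty := by
        rw [Finset.nonempty_iff_ne_empty]
        rintro rfl
        obtain ⟨x, hx⟩ := hint
        have := interior_subset hx
        simp at this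
      set n : (EuclideanSpace ℝ (Fin N)) := EuclideanSpace.single ⟨0, by omega⟩ (1 : ℝ) with hn
      have hn0 : n ≠ 0 := by
        intro h
        have h1 : ‖n‖ = 1 := by rw [hn, PiLp.norm_single, norm_one]
        rw [h, norm_zero] at h1
        exact zero_ne_one h1
      obtain ⟨p, hp, hmax⟩ := V.exists_max_image (fun v => ⟪n, v⟫_ℝ) hVne
      exact ⟨n, ⟪n, p⟫_ℝ, hn0, hmax, ⟨p, mem_fc.2 ⟨hp, rfl⟩⟩, Nat.zero_le _⟩
    | succ d ih =>
      intro hd
      obtain ⟨n, m, hn, hs, hF, hle⟩ := ih (by omega)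
      by_cases h : d + 1 ≤ finrank ℝ (vectorSpan ℝ (fc V n m : Set (EuclideanSpace ℝ (Fin N))))
      · exact ⟨n, m, hn, hs, hF, h⟩
      · obtain ⟨n', m', hn', hs', hF', hlt⟩ := step hint hn hs hF (by omega)
        exact ⟨n', m', hn', hs', hF', by omega⟩
  obtain ⟨n, m, hn, hs, hF, hle⟩ := key (N - 1) le_rfl
  refine ⟨n, m, hn, hs, hF, le_antisymm (finrank_le hn (m := m) fun x hx => ?_) hle⟩
  exact (mem_fc.1 (Finset.mem_coe.1 hx)).2

/-- facets with exactly `N` vertices -/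
structure Fct (V : Finset (EuclideanSpace ℝ (Fin N))) (n : (EuclideanSpace ℝ (Fin N))) (m : ℝ) : Prop where
  ne : n ≠ 0
  supp : ∀ v ∈ V, ⟪n, v⟫_ℝ ≤ m
  rank : finrank ℝ (vectorSpan ℝ (fc V n m : Set (EuclideanSpace ℝ (Fin N)))) = N - 1
  card : (fc V n m).card = N

/-- the span of `k + 1` points has dimension at most `k` -/
lemma finrank_card {S : Finset (EuclideanSpace ℝ (Fin N))} {k : ℕ} (hk : S.card = k + 1) :
    finrank ℝ (vectorSpan ℝ (S : Set (EuclideanSpace ℝ (Fin N)))) ≤ k := by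
  classical
  have h := finrank_vectorSpan_image_finset_le ℝ (id : (EuclideanSpace ℝ (Fin N)) → (EuclideanSpace ℝ (Fin N))) S hk
  rwa [Finset.image_id] at h

/-- the vertices of a facet are in general position -/
lemma Fct.indep {V : Finset (EuclideanSpace ℝ (Fin N))} {n : (EuclideanSpace ℝ (Fin N))} {m : ℝ} (h : Fct V n m) (hN : 2 ≤ N) [DecidableEq (EuclideanSpace ℝ (Fin N))] {q : (EuclideanSpace ℝ (Fin N))}
    (hq : q ∈ fc V n m) : q ∉ affineSpan ℝ (((fc V n m).erase q : Finset (EuclideanSpace ℝ (Fin N))) : Set (EuclideanSpace ℝ (Fin N))) := by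
  intro hcon
  have h1 := vectorSpan_insert_eq_vectorSpan (k := ℝ) hcon
  rw [← Finset.coe_insert, Finset.insert_erase hq] at h1
  have h4 := h.rank
  rw [h1] at h4
  have h2 : ((fc V n m).erase q).card = (N - 2) + 1 := by
    rw [Finset.card_erase_of_mem hq, h.card]; omega
  have h3 := finrank_card h2
  omega

/-- the vertices of a facet are pairwise joined by edges -/
lemma Fct.edge {V : Finset (EuclideanSpace ℝ (Fin N))} {n : (EuclideanSpace ℝ (Fin N))} {m : ℝ} (h : Fct V n m) (hN : 3 ≤ N) {a b : (EuclideanSpace ℝ (Fin N))}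
    (ha : a ∈ fc V n m) (hb : b ∈ fc V n m) (hab : a ≠ b) :
    PEdge (convexHull ℝ (V : Set (EuclideanSpace ℝ (Fin N)))) a b := by
  classical
  have hsep : ∀ q ∈ fc V n m, ∃ (u : (EuclideanSpace ℝ (Fin N))) (c : ℝ), (∀ y ∈ (fc V n m).erase q, ⟪u, y⟫_ℝ = c) ∧
      ⟪u, q⟫_ℝ < c := by
    intro q hq
    have hne : ((fc V n m).erase q).Nonempty := by
      rw [← Finset.card_pos, Finset.card_erase_of_mem hq, h.card]; omega
    obtain ⟨u, c, h1, h2⟩ := sep (S := (((fc V n m).erase q : Finset (EuclideanSpace ℝ (Fin N))) : Set (EuclideanSpace ℝ (Fin N))))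
      (by exact_mod_cast hne) (h.indep (by omega) hq)
    exact ⟨u, c, fun y hy => h1 y (Finset.mem_coe.2 hy), h2⟩
  choose! U C hU hC using hsep
  set T := ((fc V n m).erase a).erase b with hT
  set u : (EuclideanSpace ℝ (Fin N)) := ∑ q ∈ T, U q with hu
  set c : ℝ := ∑ q ∈ T, C q with hc
  have hin : ∀ y : (EuclideanSpace ℝ (Fin N)), ⟪u, y⟫_ℝ = ∑ q ∈ T, ⟪U q, y⟫_ℝ := fun y => by rw [hu, sum_inner]
  have hTsub : ∀ q ∈ T, q ∈ fc V n m ∧ q ≠ a ∧ q ≠ b := fun q hq =>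
    ⟨Finset.mem_of_mem_erase (Finset.mem_of_mem_erase hq),
      (Finset.mem_erase.1 (Finset.mem_of_mem_erase hq)).1, (Finset.mem_erase.1 hq).1⟩
  have hle : ∀ y ∈ fc V n m, ∀ q ∈ T, ⟪U q, y⟫_ℝ ≤ C q := by
    intro y hy q hq
    by_cases hyq : y = q
    · rw [hyq]; exact (hC q (hTsub q hq).1).le
    · exact (hU q (hTsub q hq).1 y (Finset.mem_erase.2 ⟨hyq, hy⟩)).le
  have hua : ⟪u, a⟫_ℝ = c := by
    rw [hin, hc]
    exact Finset.sum_congr rfl fun q hq => hU q (hTsub q hq).1 a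
      (Finset.mem_erase.2 ⟨(hTsub q hq).2.1.symm, ha⟩)
  have hub : ⟪u, b⟫_ℝ = c := by
    rw [hin, hc]
    exact Finset.sum_congr rfl fun q hq => hU q (hTsub q hq).1 b
      (Finset.mem_erase.2 ⟨(hTsub q hq).2.2.symm, hb⟩)
  have hul : ∀ y ∈ fc V n m, y ≠ a → y ≠ b → ⟪u, y⟫_ℝ < c := by
    intro y hy hya hyb
    have hyT : y ∈ T := Finset.mem_erase.2 ⟨hyb, Finset.mem_erase.2 ⟨hya, hy⟩⟩
    rw [hin, hc]
    exact Finset.sum_lt_sum (hle y hy) ⟨y, hyT, hC y hy⟩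
  -- a small multiple of `u`
  obtain ⟨ε, hε, hsm⟩ : ∃ ε : ℝ, 0 < ε ∧ ∀ v ∈ V, ⟪n, v⟫_ℝ < m → ⟪n, v⟫_ℝ + ε * (⟪u, v⟫_ℝ - c) < m := by
    have : ∀ v ∈ V, ∀ᶠ ε : ℝ in 𝓝[>] 0, ⟪n, v⟫_ℝ < m → ⟪n, v⟫_ℝ + ε * (⟪u, v⟫_ℝ - c) < m := by
      intro v hv
      by_cases hvm : ⟪n, v⟫_ℝ < m
      · have hcont : Filter.Tendsto (fun ε : ℝ => ⟪n, v⟫_ℝ + ε * (⟪u, v⟫_ℝ - c)) (𝓝[>] 0)
            (𝓝 (⟪n, v⟫_ℝ + 0 * (⟪u, v⟫_ℝ - c))) := by
          apply Filter.Tendsto.mono_left _ nhdsWithin_le_nhds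
          exact (Continuous.tendsto (by fun_prop) 0)
        rw [zero_mul, add_zero] at hcont
        filter_upwards [hcont.eventually_lt_const hvm] with ε hε _ using hε
      · exact Filter.Eventually.of_forall fun ε hc => absurd hc hvm
    have h2 := (Filter.eventually_all_finset V).2 this
    obtain ⟨ε, h3, h4⟩ := (h2.and self_mem_nhdsWithin).exists
    exact ⟨ε, h4, h3⟩
  have hin2 : ∀ v : (EuclideanSpace ℝ (Fin N)), ⟪n + ε • u, v⟫_ℝ = ⟪n, v⟫_ℝ + ε * ⟪u, v⟫_ℝ := by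
    intro v; rw [inner_add_left, real_inner_smul_left]
  have hs2 : ∀ v ∈ V, ⟪n + ε • u, v⟫_ℝ ≤ m + ε * c := by
    intro v hv
    rw [hin2]
    rcases lt_or_eq_of_le (h.supp v hv) with hvm | hvm
    · have := hsm v hv hvm
      nlinarith
    · have hvF : v ∈ fc V n m := mem_fc.2 ⟨hv, hvm⟩
      have : ⟪u, v⟫_ℝ ≤ c := by
        rw [hin, hc]; exact Finset.sum_le_sum (hle v hvF)
      nlinarith
  refine ⟨hab, n + ε • u, m + ε * c, supp_iff hs2, ?_⟩
  rw [face_hull hs2]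
  have hset : ((V.filter fun v => ⟪n + ε • u, v⟫_ℝ = m + ε * c : Finset (EuclideanSpace ℝ (Fin N))) : Set (EuclideanSpace ℝ (Fin N))) = {a, b} := by
    ext v
    simp only [Finset.coe_filter, mem_ofPred_eq, mem_insert_iff, mem_singleton_iff]
    constructor
    · rintro ⟨hv, hve⟩
      rw [hin2] at hve
      rcases lt_or_eq_of_le (h.supp v hv) with hvm | hvm
      · have := hsm v hv hvm
        nlinarith
      · by_contra hcon
        push Not at hcon
        have := hul v (mem_fc.2 ⟨hv, hvm⟩) hcon.1 hcon.2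
        nlinarith
    · rintro (rfl | rfl)
      · exact ⟨(mem_fc.1 ha).1, by rw [hin2, (mem_fc.1 ha).2, hua]⟩
      · exact ⟨(mem_fc.1 hb).1, by rw [hin2, (mem_fc.1 hb).2, hub]⟩
  rw [hset, convexHull_pair]

lemma Fct.of_le {V : Finset (EuclideanSpace ℝ (Fin N))} {n : (EuclideanSpace ℝ (Fin N))} {m : ℝ} (hn : n ≠ 0) (hN : 1 ≤ N)
    (hs : ∀ v ∈ V, ⟪n, v⟫_ℝ ≤ m) (hF : (fc V n m).Nonempty)
    (hr : N - 1 ≤ finrank ℝ (vectorSpan ℝ (fc V n m : Set (EuclideanSpace ℝ (Fin N)))))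
    (hc : finrank ℝ (vectorSpan ℝ (fc V n m : Set (EuclideanSpace ℝ (Fin N)))) = N - 1 → (fc V n m).card ≤ N) :
    Fct V n m := by
  have h1 : finrank ℝ (vectorSpan ℝ (fc V n m : Set (EuclideanSpace ℝ (Fin N)))) = N - 1 :=
    le_antisymm (finrank_le hn (m := m) fun x hx => (mem_fc.1 (Finset.mem_coe.1 hx)).2) hr
  refine ⟨hn, hs, h1, le_antisymm (hc h1) ?_⟩
  obtain ⟨k, hk⟩ : ∃ k, (fc V n m).card = k + 1 :=
    ⟨(fc V n m).card - 1, by have := Finset.card_pos.2 hF; omega⟩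
  have h2 := finrank_card hk
  omega

/-- the neighbour of a facet -/
lemma Fct.next {V : Finset (EuclideanSpace ℝ (Fin N))} (hint : (interior (convexHull ℝ (V : Set (EuclideanSpace ℝ (Fin N))))).Nonempty)
    (hcard : ∀ (n : (EuclideanSpace ℝ (Fin N))) (m : ℝ), n ≠ 0 → (∀ v ∈ V, ⟪n, v⟫_ℝ ≤ m) →
      finrank ℝ (vectorSpan ℝ (fc V n m : Set (EuclideanSpace ℝ (Fin N)))) = N - 1 → (fc V n m).card ≤ N)
    {n : (EuclideanSpace ℝ (Fin N))} {m : ℝ} (h : Fct V n m) (hN : 3 ≤ N) {q : (EuclideanSpace ℝ (Fin N))} (hq : q ∈ fc V n m) :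
    ∃ p ∈ V, p ∉ fc V n m ∧ ∀ y ∈ fc V n m, y ≠ q → PEdge (convexHull ℝ (V : Set (EuclideanSpace ℝ (Fin N)))) y p := by
  classical
  have hne : ((fc V n m).erase q).Nonempty := by
    rw [← Finset.card_pos, Finset.card_erase_of_mem hq, h.card]; omega
  obtain ⟨u, c, h1, h2⟩ := sep (S := (((fc V n m).erase q : Finset (EuclideanSpace ℝ (Fin N))) : Set (EuclideanSpace ℝ (Fin N))))
    (by exact_mod_cast hne) (h.indep (by omega) hq)
  obtain ⟨v0, hv0, hv0m⟩ := exists_ne hint h.ne m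
  have hv0m' : ⟪n, v0⟫_ℝ < m := lt_of_le_of_ne (h.supp v0 hv0) hv0m
  set t : ℝ := (1 + |c - ⟪u, v0⟫_ℝ|) / (m - ⟪n, v0⟫_ℝ) with ht
  have ht1 : t * (m - ⟪n, v0⟫_ℝ) = 1 + |c - ⟪u, v0⟫_ℝ| := by
    rw [ht]; field_simp [sub_ne_zero.2 hv0m'.ne']
  set w : (EuclideanSpace ℝ (Fin N)) := u - t • n with hw
  set c' : ℝ := c - t * m with hc'
  have hin : ∀ v : (EuclideanSpace ℝ (Fin N)), ⟪w, v⟫_ℝ = ⟪u, v⟫_ℝ - t * ⟪n, v⟫_ℝ := by
    intro v; rw [hw, inner_sub_left, real_inner_smul_left]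
  have hwF : ∀ y ∈ fc V n m, y ≠ q → ⟪w, y⟫_ℝ = c' := by
    intro y hy hyq
    rw [hin, h1 y (Finset.mem_coe.2 (Finset.mem_erase.2 ⟨hyq, hy⟩)), (mem_fc.1 hy).2]
  have hwq : ⟪w, q⟫_ℝ < c' := by
    rw [hin, (mem_fc.1 hq).2]; linarith
  have hw0 : c' < ⟪w, v0⟫_ℝ := by
    rw [hin, hc']
    have := le_abs_self (c - ⟪u, v0⟫_ℝ)
    linarith
  have hwle : ∀ v ∈ V, ⟪n, v⟫_ℝ = m → ⟪w, v⟫_ℝ ≤ c' := by
    intro v hv hvm
    by_cases hvq : v = q
    · rw [hvq]; exact hwq.le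
    · exact (hwF v (mem_fc.2 ⟨hv, hvm⟩) hvq).le
  obtain ⟨l, hl, hs', p, hp, hpw, hpe⟩ := rot h.supp hwle ⟨v0, hv0, hw0⟩
  have hpF : p ∉ fc V n m := by
    intro hcon
    have := hwle p hp (mem_fc.1 hcon).2
    linarith
  have hin2 : ∀ v : (EuclideanSpace ℝ (Fin N)), ⟪n + l • w, v⟫_ℝ = ⟪n, v⟫_ℝ + l * ⟪w, v⟫_ℝ := by
    intro v; rw [inner_add_left, real_inner_smul_left]
  have hsub : ∀ y ∈ fc V n m, y ≠ q → y ∈ fc V (n + l • w) (m + l * c') := by
    intro y hy hyq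
    refine mem_fc.2 ⟨(mem_fc.1 hy).1, ?_⟩
    rw [hin2, (mem_fc.1 hy).2, hwF y hy hyq]
  have hpF' : p ∈ fc V (n + l • w) (m + l * c') := mem_fc.2 ⟨hp, hpe⟩
  have hqlt : ⟪n + l • w, q⟫_ℝ < m + l * c' := by
    rw [hin2, (mem_fc.1 hq).2]; nlinarith
  have hn' : n + l • w ≠ 0 := by
    intro h0
    rw [h0, inner_zero_left] at hpe hqlt
    linarith
  have hfct : Fct V (n + l • w) (m + l * c') := by
    refine Fct.of_le hn' (by omega) hs' ⟨p, hpF'⟩ ?_ (hcard _ _ hn' hs')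
    obtain ⟨y0, hy0⟩ := hne
    rw [Finset.mem_erase] at hy0
    have h3 := finrank_vectorSpan_insert_le_set ℝ (((fc V n m).erase q : Finset (EuclideanSpace ℝ (Fin N))) : Set (EuclideanSpace ℝ (Fin N))) q
    rw [← Finset.coe_insert, Finset.insert_erase hq, h.rank] at h3
    have h4 : finrank ℝ (vectorSpan ℝ (((fc V n m).erase q : Finset (EuclideanSpace ℝ (Fin N))) : Set (EuclideanSpace ℝ (Fin N)))) <
        finrank ℝ (vectorSpan ℝ (fc V (n + l • w) (m + l * c') : Set (EuclideanSpace ℝ (Fin N)))) := by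
      apply Submodule.finrank_lt_finrank_of_lt
      refine lt_of_le_of_ne (vectorSpan_mono ℝ fun y hy => ?_) fun heq => ?_
      · rw [Finset.mem_coe, Finset.mem_erase] at hy
        exact hsub y hy.2 hy.1
      · have h5 : p - y0 ∈ vectorSpan ℝ (fc V (n + l • w) (m + l * c') : Set (EuclideanSpace ℝ (Fin N))) :=
          vsub_mem_vectorSpan ℝ (Finset.mem_coe.2 hpF') (Finset.mem_coe.2 (hsub y0 hy0.2 hy0.1))
        rw [← heq] at h5
        have h6 : ∀ d ∈ vectorSpan ℝ (((fc V n m).erase q : Finset (EuclideanSpace ℝ (Fin N))) : Set (EuclideanSpace ℝ (Fin N))), ⟪n, d⟫_ℝ = 0 := by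
          have h7 : vectorSpan ℝ (((fc V n m).erase q : Finset (EuclideanSpace ℝ (Fin N))) : Set (EuclideanSpace ℝ (Fin N))) ≤ (ℝ ∙ n)ᗮ := by
            rw [vectorSpan_def, Submodule.span_le]
            rintro _ ⟨x, hx, y, hy, rfl⟩
            rw [SetLike.mem_coe, Submodule.mem_orthogonal_singleton_iff_inner_right]
            show ⟪n, x - y⟫_ℝ = 0
            rw [inner_sub_right, (mem_fc.1 (Finset.mem_of_mem_erase (Finset.mem_coe.1 hx))).2,
              (mem_fc.1 (Finset.mem_of_mem_erase (Finset.mem_coe.1 hy))).2, sub_self]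
          intro d hd
          exact Submodule.mem_orthogonal_singleton_iff_inner_right.1 (h7 hd)
        have h8 := h6 _ h5
        rw [inner_sub_right, (mem_fc.1 hy0.2).2] at h8
        exact hpF (mem_fc.2 ⟨hp, by linarith⟩)
    omega
  exact ⟨p, hp, hpF, fun y hy hyq => hfct.edge hN (hsub y hy hyq) hpF'
    fun h9 => hpF (h9 ▸ hy)⟩

lemma pedge_symm {K : Set (EuclideanSpace ℝ (Fin N))} {a b : (EuclideanSpace ℝ (Fin N))} (h : PEdge K a b) : PEdge K b a := by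
  obtain ⟨h1, n, m, h2, h3⟩ := h
  exact ⟨h1.symm, n, m, h2, by rw [h3, segment_symm]⟩

lemma main (hI : JInc) (hD : JDeg) (hN : 3 ≤ N) {K : Set (EuclideanSpace ℝ (Fin N))} {V : Finset (EuclideanSpace ℝ (Fin N))}
    (hKV : convexHull ℝ (V : Set (EuclideanSpace ℝ (Fin N))) = K) (hex : extremePoints ℝ K = V)
    (hint : (interior K).Nonempty)
    (hcard : ∀ (n : (EuclideanSpace ℝ (Fin N))) (m : ℝ), n ≠ 0 → (∀ v ∈ V, ⟪n, v⟫_ℝ ≤ m) →
      finrank ℝ (vectorSpan ℝ (fc V n m : Set (EuclideanSpace ℝ (Fin N)))) = N - 1 → (fc V n m).card ≤ N)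
    (hdeg : ∀ p ∈ V, {q | PEdge K p q}.ncard ≤ N) : V.card ≤ N + 1 := by
  classical
  subst hKV
  have hK : IsCompact (convexHull ℝ (V : Set (EuclideanSpace ℝ (Fin N)))) := V.finite_toSet.isCompact_convexHull ℝ
  have hconv := convex_convexHull ℝ (V : Set (EuclideanSpace ℝ (Fin N)))
  have hfin : (extremePoints ℝ (convexHull ℝ (V : Set (EuclideanSpace ℝ (Fin N))))).Finite := by
    rw [hex]; exact V.finite_toSet
  have hEfin : ∀ p ∈ V, {q | PEdge (convexHull ℝ (V : Set (EuclideanSpace ℝ (Fin N)))) p q}.Finite := fun p hp =>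
    (hD N _ hK hconv hfin p 0 0 (by rw [hex]; exact hp) (fun r _ => by rw [inner_zero_left])
      (by rw [inner_zero_left])).1
  obtain ⟨n, m, hn, hs, hF, hr⟩ := exists_facet (by omega : 1 ≤ N) hint
  have h : Fct V n m := Fct.of_le hn (by omega) hs hF hr.ge (hcard n m hn hs)
  have hnext : ∀ q ∈ fc V n m, ∃ p, p ∈ V ∧ p ∉ fc V n m ∧
      ∀ y ∈ fc V n m, y ≠ q → PEdge (convexHull ℝ (V : Set (EuclideanSpace ℝ (Fin N)))) y p := by
    intro q hq
    obtain ⟨p, h1, h2, h3⟩ := h.next hint hcard hN hq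
    exact ⟨p, h1, h2, h3⟩
  choose! P hPV hPF hPE using hnext
  have hsame : ∀ q1 ∈ fc V n m, ∀ q2 ∈ fc V n m, P q1 = P q2 := by
    intro q1 hq1 q2 hq2
    by_contra hne
    obtain ⟨q', hq'⟩ : (((fc V n m).erase q1).erase q2).Nonempty := by
      rw [← Finset.card_pos]
      have h1 := Finset.pred_card_le_card_erase (s := (fc V n m).erase q1) (a := q2)
      rw [Finset.card_erase_of_mem hq1, h.card] at h1
      omega
    rw [Finset.mem_erase, Finset.mem_erase] at hq'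
    obtain ⟨hq'2, hq'1, hq'F⟩ := hq'
    have hA : ((insert (P q1) (insert (P q2) ((fc V n m).erase q')) : Finset (EuclideanSpace ℝ (Fin N))) : Set (EuclideanSpace ℝ (Fin N))) ⊆
        {q | PEdge (convexHull ℝ (V : Set (EuclideanSpace ℝ (Fin N)))) q' q} := by
      intro x hx
      rw [Finset.mem_coe, Finset.mem_insert, Finset.mem_insert, Finset.mem_erase] at hx
      rcases hx with rfl | rfl | ⟨hx1, hx2⟩
      · exact hPE q1 hq1 q' hq'F hq'1
      · exact hPE q2 hq2 q' hq'F hq'2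
      · exact h.edge hN hq'F hx2 hx1.symm
    have h2 := ncard_le_ncard hA (hEfin q' (mem_fc.1 hq'F).1)
    rw [ncard_coe_finset, Finset.card_insert_of_notMem, Finset.card_insert_of_notMem,
      Finset.card_erase_of_mem hq'F, h.card] at h2
    · have := hdeg q' (mem_fc.1 hq'F).1
      omega
    · exact fun h3 => hPF q2 hq2 (Finset.mem_of_mem_erase h3)
    · rw [Finset.mem_insert, not_or]
      exact ⟨hne, fun h3 => hPF q1 hq1 (Finset.mem_of_mem_erase h3)⟩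
  obtain ⟨q0, hq0⟩ := hF
  set p := P q0 with hp
  have hpV : p ∈ V := hPV q0 hq0
  have hpF : p ∉ fc V n m := hPF q0 hq0
  have hpE : ∀ q ∈ fc V n m, PEdge (convexHull ℝ (V : Set (EuclideanSpace ℝ (Fin N)))) q p := by
    intro q hq
    obtain ⟨q1, hq1⟩ : ((fc V n m).erase q).Nonempty := by
      rw [← Finset.card_pos, Finset.card_erase_of_mem hq, h.card]; omega
    rw [Finset.mem_erase] at hq1
    rw [hp, hsame q0 hq0 q1 hq1.2]
    exact hPE q1 hq1.2 q hq hq1.1.symm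
  set S : Finset (EuclideanSpace ℝ (Fin N)) := insert p (fc V n m) with hS
  have hclosed : ∀ s ∈ S, ∀ x, PEdge (convexHull ℝ (V : Set (EuclideanSpace ℝ (Fin N)))) s x → x ∈ S := by
    intro s hs x hx
    rw [hS, Finset.mem_insert] at hs
    rcases hs with rfl | hs
    · have hA : ((fc V n m : Finset (EuclideanSpace ℝ (Fin N))) : Set (EuclideanSpace ℝ (Fin N))) ⊆
          {q | PEdge (convexHull ℝ (V : Set (EuclideanSpace ℝ (Fin N)))) p q} := fun y hy => pedge_symm (hpE y hy)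
      have h2 := eq_of_subset_of_ncard_le hA (by
        rw [ncard_coe_finset, h.card]; exact hdeg p hpV) (hEfin p hpV)
      have h3 : x ∈ ((fc V n m : Finset (EuclideanSpace ℝ (Fin N))) : Set (EuclideanSpace ℝ (Fin N))) := by rw [h2]; exact hx
      exact Finset.mem_insert_of_mem h3
    · have hA : ((insert p ((fc V n m).erase s) : Finset (EuclideanSpace ℝ (Fin N))) : Set (EuclideanSpace ℝ (Fin N))) ⊆
          {q | PEdge (convexHull ℝ (V : Set (EuclideanSpace ℝ (Fin N)))) s q} := by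
        intro y hy
        rw [Finset.mem_coe, Finset.mem_insert, Finset.mem_erase] at hy
        rcases hy with rfl | ⟨hy1, hy2⟩
        · exact hpE s hs
        · exact h.edge hN hs hy2 hy1.symm
      have h2 := eq_of_subset_of_ncard_le hA (by
        rw [ncard_coe_finset, Finset.card_insert_of_notMem, Finset.card_erase_of_mem hs, h.card]
        · have := hdeg s (mem_fc.1 hs).1
          omega
        · exact fun h3 => hpF (Finset.mem_of_mem_erase h3)) (hEfin s (mem_fc.1 hs).1)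
      have h3 : x ∈ ((insert p ((fc V n m).erase s) : Finset (EuclideanSpace ℝ (Fin N))) : Set (EuclideanSpace ℝ (Fin N))) := by rw [h2]; exact hx
      rw [Finset.mem_coe, Finset.mem_insert, Finset.mem_erase] at h3
      rw [hS, Finset.mem_insert]
      rcases h3 with h3 | h3
      · exact Or.inl h3
      · exact Or.inr h3.2
  have hSV : ∀ s ∈ S, s ∈ V := by
    intro s hs
    rw [hS, Finset.mem_insert] at hs
    rcases hs with rfl | hs
    · exact hpV
    · exact (mem_fc.1 hs).1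
  have hVS : V ⊆ S := by
    intro r hr
    by_contra hrS
    have h1 : r ∈ extremePoints ℝ (convexHull ℝ (V : Set (EuclideanSpace ℝ (Fin N)))) := by rw [hex]; exact hr
    rw [hconv.mem_extremePoints_iff_mem_sdiff_convexHull_sdiff] at h1
    have h2 : r ∉ convexHull ℝ (S : Set (EuclideanSpace ℝ (Fin N))) := by
      intro h3
      refine h1.2 (convexHull_mono (fun s hs => Set.mem_sdiff_of_mem
        (subset_convexHull ℝ _ (hSV s hs)) ?_) h3)
      intro h4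
      rw [Set.mem_singleton_iff] at h4
      exact hrS (h4 ▸ hs)
    obtain ⟨f, c, hf1, hf2⟩ := geometric_hahn_banach_closed_point (convex_convexHull ℝ _)
      (S.finite_toSet.isCompact_convexHull ℝ).isClosed h2
    set w : (EuclideanSpace ℝ (Fin N)) := (InnerProductSpace.toDual ℝ (EuclideanSpace ℝ (Fin N))).symm f with hw
    have hwf : ∀ x : (EuclideanSpace ℝ (Fin N)), ⟪w, x⟫_ℝ = f x := fun x => InnerProductSpace.toDual_symm_apply
    obtain ⟨s, hs, hmax⟩ := S.exists_max_image (fun s => ⟪w, s⟫_ℝ) ⟨p, Finset.mem_insert_self _ _⟩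
    obtain ⟨x, hx1, hx2⟩ := hI N _ hK hconv hfin s w (by rw [hex]; exact hSV s hs)
      ⟨r, subset_convexHull ℝ _ hr, by
        rw [hwf, hwf]
        exact (hf1 s (subset_convexHull ℝ _ hs)).trans hf2⟩
    exact absurd (hmax x (hclosed s hs x hx1)) (not_le.2 hx2)
  refine (Finset.card_le_card hVS).trans ((Finset.card_insert_le _ _).trans ?_)
  rw [h.card]

end lemmas

theorem simp (hI : JInc) (hD : JDeg) : JSimp := by
  classical
  intro N K hN hK hconv hint hfin hfac hdeg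
  have hex : extremePoints ℝ K = (hfin.toFinset : Set (EuclideanSpace ℝ (Fin N))) := by simp
  have hKV : convexHull ℝ (hfin.toFinset : Set (EuclideanSpace ℝ (Fin N))) = K := by
    rw [← hex]
    have h1 := closure_convexHull_extremePoints hK hconv
    rwa [(hfin.isCompact_convexHull ℝ).isClosed.closure_eq] at h1
  have h2 := main hI hD hN hKV hex hint ?_ ?_
  · rwa [← ncard_coe_finset, ← hex] at h2
  · intro n m hn hs hr
    have h3 : {r | r ∈ K ∧ ⟪n, r⟫_ℝ = m} = convexHull ℝ (fc hfin.toFinset n m : Set _) := by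
      conv_lhs => rw [← hKV]
      rw [face_hull hs]
      congr 1
    have h4 := hfac n m hn (by rw [← hKV]; exact supp_iff hs) (by
      rw [h3, ← direction_affineSpan, affineSpan_convexHull, direction_affineSpan, hr])
    have h5 : extremePoints ℝ K ∩ {r | ⟪n, r⟫_ℝ = m} = (fc hfin.toFinset n m : Set _) := by
      ext v
      rw [Finset.mem_coe, mem_fc, mem_inter_iff, Set.Finite.mem_toFinset, mem_ofPred_eq]
    rwa [h5, ncard_coe_finset] at h4
  · intro p hp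
    exact hdeg p (by rw [hex]; exact hp)

end Pool.Agent.Y294.PB
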